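import Pool.Agent.W462.DPL.C
import Pool.Agent.H342R3.Tig.POL
import Pool.Agent.W822.PD.StmC

/-!
PD-UL: upper bound for the dimension of the double points of the limits of the closed path.
-/

namespace Pool.Agent.W978.PDUL

open H974 H12S Finset H389NS H984P H984N H342P H342L H342T
open MeasureTheory Filter Topology Pool.Agent.W92.DP Pool.Agent.W822.PD Pool.Agent.W462.DPL
open scoped ENNReal NNReal

/-! ### Curves -/

theorem EvC_open (z : ℂ) (r ρ : ℝ) : IsOpen (EvC z r ρ) := by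
  rw [Metric.isOpen_iff]
  rintro c ⟨s, t, hst, h1, h2, ⟨u, hu, hu2⟩, v, hv, hv2⟩
  set ε : ℝ := min (min (r - dist (c.path s) z) (r - dist (c.path t) z))
    (min (dist (c.path u) z - ρ) (dist (c.path v) z - ρ)) with hε
  have hpos : 0 < ε :=
    lt_min (lt_min (by linarith) (by linarith)) (lt_min (by linarith) (by linarith))
  have e1 : ε ≤ r - dist (c.path s) z := (min_le_left _ _).trans (min_le_left _ _)
  have e2 : ε ≤ r - dist (c.path t) z := (min_le_left _ _).trans (min_le_right _ _)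
  have e3 : ε ≤ dist (c.path u) z - ρ := (min_le_right _ _).trans (min_le_left _ _)
  have e4 : ε ≤ dist (c.path v) z - ρ := (min_le_right _ _).trans (min_le_right _ _)
  refine ⟨ε, hpos, fun c' hcc' => ?_⟩
  rw [Metric.mem_ball, Curve.dist_def, cdist_eq] at hcc'
  obtain ⟨φ, hφ⟩ := exists_lt_of_ciInf_lt hcc'
  have key : ∀ x : unitInterval, dist (c'.path (φ.symm x)) (c.path x) < ε := by
    intro x
    have h := ContinuousMap.dist_apply_le_dist (f := c'.path) (g := rep c.path φ) (φ.symm x)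
    rw [rep_apply, OrderIso.apply_symm_apply] at h
    exact lt_of_le_of_lt h hφ
  refine ⟨φ.symm s, φ.symm t, φ.symm.monotone hst, ?_, ?_,
    ⟨φ.symm u, ⟨φ.symm.monotone hu.1, φ.symm.monotone hu.2⟩, ?_⟩, φ.symm v, ?_, ?_⟩
  · have h3 := dist_triangle (c'.path (φ.symm s)) (c.path s) z
    have h4 := key s
    linarith
  · have h3 := dist_triangle (c'.path (φ.symm t)) (c.path t) z
    have h4 := key t
    linarith
  · have h3 := dist_triangle_left (c.path u) z (c'.path (φ.symm u))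
    have h4 := key u
    linarith
  · rcases hv with hv | hv
    · exact Or.inl (φ.symm.monotone hv)
    · exact Or.inr (φ.symm.monotone hv)
  · have h3 := dist_triangle_left (c.path v) z (c'.path (φ.symm v))
    have h4 := key v
    linarith

/-- A double point near `z` forces the event. -/
theorem EvC_of_DPc {η r ρ : ℝ} {c : Curve} {z w : ℂ} (hw : w ∈ DPc η c.path)
    (hwz : dist w z < r) (hρ : ρ + r ≤ η) : c ∈ EvC z r ρ := by
  obtain ⟨s, t, hst, hs, ht, ⟨u, hu, hu2⟩, v, hv, hv2⟩ := hw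
  refine ⟨s, t, hst, by rw [hs]; exact hwz, by rw [ht]; exact hwz, ⟨u, hu, ?_⟩, v, hv, ?_⟩
  · have h6 := dist_triangle (c.path u) z w
    rw [dist_comm z w] at h6
    linarith
  · have h6 := dist_triangle (c.path v) z w
    rw [dist_comm z w] at h6
    linarith

/-! ### Nodes -/

/-- Every point of the polygonal path is close to a node, with control of the index. -/
theorem poly_close {N : ℕ} (hN : 0 < N) {f : ℕ → ℂ} {δ : ℝ}
    (h : ∀ k < N, dist (f k) (f (k + 1)) ≤ δ) (s : unitInterval) :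
    ∃ k < N, ((k : ℝ) ≤ s * N ∧ (s : ℝ) * N ≤ k + 1) ∧ dist (poly f N s) (f k) ≤ δ := by
  obtain ⟨k, hk, h1, h2⟩ := pl_exists_seg hN s
  refine ⟨k, hk, ⟨h1, h2⟩, ?_⟩
  rw [POL_formula f N k hk s (by rw [mul_comm]; exact h1) (by rw [mul_comm]; exact h2),
    dist_eq_norm]
  have e : f k + ((N * (s : ℝ) - k : ℝ) : ℂ) * (f (k + 1) - f k) - f k =
      ((N * (s : ℝ) - k : ℝ) : ℂ) * (f (k + 1) - f k) := by ring
  rw [e, norm_mul, Complex.norm_real, Real.norm_eq_abs, abs_of_nonneg (by linarith)]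
  have h3 := h k hk
  rw [dist_comm, dist_eq_norm] at h3
  have h4 := norm_nonneg (f (k + 1) - f k)
  nlinarith

theorem pt_step' {n : ℕ} (hn : 0 < n) (F : Set Edg) (σ : St) (j : ℕ) :
    dist (pt n (orb F σ j).1) (pt n (orb F σ (j + 1)).1) ≤ 1 / (n : ℝ) := by
  have hn' : (0:ℝ) < n := by exact_mod_cast hn
  have key : ∀ u w : ℤ × ℤ, ((u.1 = w.1 ∧ |u.2 - w.2| ≤ 1) ∨ (u.2 = w.2 ∧ |u.1 - w.1| ≤ 1)) →
      dist (pt n u) (pt n w) ≤ 1 / (n : ℝ) := by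
    intro u w h
    rw [dist_eq_norm]
    refine (Complex.norm_le_abs_re_add_abs_im _).trans ?_
    have e1 : (pt n u - pt n w).re = ((u.1 - w.1 : ℤ) : ℝ) / n := by
      unfold pt
      rw [Complex.sub_re]
      push_cast
      ring
    have e2 : (pt n u - pt n w).im = ((u.2 - w.2 : ℤ) : ℝ) / n := by
      unfold pt
      rw [Complex.sub_im]
      push_cast
      ring
    rw [e1, e2, abs_div, abs_div, Nat.abs_cast, ← Int.cast_abs, ← Int.cast_abs]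
    rcases h with ⟨h1, h2⟩ | ⟨h1, h2⟩
    · rw [h1, sub_self, abs_zero, Int.cast_zero, zero_div, zero_add]
      have : ((|u.2 - w.2| : ℤ) : ℝ) ≤ 1 := by exact_mod_cast h2
      exact div_le_div_of_nonneg_right this hn'.le
    · rw [h1, sub_self, abs_zero, Int.cast_zero, zero_div, add_zero]
      have : ((|u.1 - w.1| : ℤ) : ℝ) ≤ 1 := by exact_mod_cast h2
      exact div_le_div_of_nonneg_right this hn'.le
  apply key
  rw [orb_succ]
  generalize orb F σ j = τ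
  obtain ⟨⟨x, y⟩, q⟩ := τ
  by_cases h : ae ((x, y), q) ∈ F
  · rw [nxt_open h]
    cases q <;> simp
  · rw [nxt_closed h]
    cases q <;> simp

/-- the centre of the lattice boxes -/
noncomputable def ctc (δ : ℝ) (z : ℂ) : ℤ × ℤ := (⌊z.re / δ⌋, ⌊z.im / δ⌋)

/-- one coordinate -/
theorem near1 {δ r : ℝ} (hδ : 0 < δ) {a : ℝ} {x : ℤ} {ρ : ℕ} (hρ : r / δ ≤ ρ)
    (h : |(x : ℝ) * δ - a| ≤ r + δ) : ⌊a / δ⌋ - ((ρ + 3 : ℕ) : ℤ) ≤ x ∧
      x ≤ ⌊a / δ⌋ + ((ρ + 3 : ℕ) : ℤ) := by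
  have a1 := Int.floor_le (a / δ)
  have a2 := Int.lt_floor_add_one (a / δ)
  have k1 : |(x : ℝ) - a / δ| ≤ r / δ + 1 := by
    have e4 : |(x : ℝ) - a / δ| = |(x : ℝ) * δ - a| / δ := by
      rw [← abs_of_pos hδ, ← abs_div, abs_of_pos hδ]
      congr 1
      field_simp
    rw [e4, div_le_iff₀ hδ]
    have e5 : (r / δ + 1) * δ = r + δ := by field_simp
    rw [e5]
    exact h
  rw [abs_le] at k1
  constructor
  · have : ((⌊a / δ⌋ : ℤ) : ℝ) - ((ρ : ℝ) + 3) ≤ x := by linarith [k1.1, k1.2]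
    have h2 : ((⌊a / δ⌋ - ((ρ + 3 : ℕ) : ℤ) : ℤ) : ℝ) ≤ x := by
      push_cast
      exact this
    exact_mod_cast h2
  · have : (x : ℝ) ≤ ((⌊a / δ⌋ : ℤ) : ℝ) + ((ρ : ℝ) + 3) := by linarith [k1.1, k1.2]
    have h2 : (x : ℝ) ≤ ((⌊a / δ⌋ + ((ρ + 3 : ℕ) : ℤ) : ℤ) : ℝ) := by
      push_cast
      exact this
    exact_mod_cast h2

/-- one coordinate -/
theorem box1 {δ : ℝ} (hδ : 0 < δ) {a : ℝ} {x : ℤ} {k : ℕ} (h1 : ⌊a / δ⌋ - (k : ℤ) ≤ x)
    (h2 : x ≤ ⌊a / δ⌋ + (k : ℤ)) : |(x : ℝ) * δ - a| ≤ δ * (k + 1) := by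
  have a1 := Int.floor_le (a / δ)
  have a2 := Int.lt_floor_add_one (a / δ)
  have g1 : ((⌊a / δ⌋ : ℤ) : ℝ) - k ≤ x := by exact_mod_cast h1
  have g2 : (x : ℝ) ≤ ((⌊a / δ⌋ : ℤ) : ℝ) + k := by exact_mod_cast h2
  have e : (x : ℝ) * δ - a = δ * ((x : ℝ) - a / δ) := by field_simp
  rw [e, abs_mul, abs_of_pos hδ]
  refine mul_le_mul_of_nonneg_left ?_ hδ.le
  rw [abs_le]
  constructor <;> linarith

theorem pt_re (n : ℕ) (v : ℤ × ℤ) : (pt n v).re = (v.1 : ℝ) * (1 / n) := by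
  unfold pt
  show (v.1 : ℝ) / n = _
  ring

theorem pt_im (n : ℕ) (v : ℤ × ℤ) : (pt n v).im = (v.2 : ℝ) * (1 / n) := by
  unfold pt
  show (v.2 : ℝ) / n = _
  ring

/-- position near `z` implies vertex near the centre -/
theorem near_boxC {n : ℕ} (hn : 0 < n) {r : ℝ} {z : ℂ} {v : ℤ × ℤ}
    (h : dist (pt n v) z ≤ r + 1 / n) :
    inR ((ctc (1 / n) z).1 - (⌈r / (1 / n)⌉₊ + 3 : ℕ)) ((ctc (1 / n) z).1 + (⌈r / (1 / n)⌉₊ + 3 : ℕ))
      ((ctc (1 / n) z).2 - (⌈r / (1 / n)⌉₊ + 3 : ℕ))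
      ((ctc (1 / n) z).2 + (⌈r / (1 / n)⌉₊ + 3 : ℕ)) v := by
  have hδ : (0:ℝ) < 1 / n := by positivity
  have h1 := (ML.le_dist_re (pt n v) z).trans h
  have h2 := (ML.le_dist_im (pt n v) z).trans h
  rw [pt_re] at h1
  rw [pt_im] at h2
  have hρ : r / (1 / (n : ℝ)) ≤ (⌈r / (1 / (n : ℝ))⌉₊ : ℝ) := Nat.le_ceil _
  obtain ⟨k1, k2⟩ := near1 hδ hρ h1
  obtain ⟨k3, k4⟩ := near1 hδ hρ h2
  exact ⟨⟨k1, k2⟩, k3, k4⟩

/-- vertex in a box implies position near `z` -/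
theorem box_nearC {n : ℕ} (hn : 0 < n) {z : ℂ} {v : ℤ × ℤ} {k : ℕ}
    (h : inR ((ctc (1 / n) z).1 - k) ((ctc (1 / n) z).1 + k) ((ctc (1 / n) z).2 - k)
      ((ctc (1 / n) z).2 + k) v) :
    dist (pt n v) z ≤ 2 * (1 / n) * k + 2 * (1 / n) := by
  have hδ : (0:ℝ) < 1 / n := by positivity
  obtain ⟨⟨h1, h2⟩, h3, h4⟩ := h
  have k1 := box1 hδ h1 h2
  have k2 := box1 hδ h3 h4
  rw [← pt_re] at k1
  rw [← pt_im] at k2
  refine (ML.dist_le_of k1 k2).trans ?_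
  apply le_of_eq
  ring

/-- the box of radius `⌊d / (8 δ)⌋` is in the square -/
theorem dom_boxC {z : ℂ} {d : ℝ} {n : ℕ} (hn : 0 < n) (hd : 64 * (1 / (n : ℝ)) ≤ d)
    (hball : Metric.ball z d ⊆ Sq) :
    0 < (ctc (1 / n) z).1 - (⌊d / (8 * (1 / (n : ℝ)))⌋₊ : ℕ) ∧
      (ctc (1 / n) z).1 + (⌊d / (8 * (1 / (n : ℝ)))⌋₊ : ℕ) < n ∧
      0 < (ctc (1 / n) z).2 - (⌊d / (8 * (1 / (n : ℝ)))⌋₊ : ℕ) ∧
      (ctc (1 / n) z).2 + (⌊d / (8 * (1 / (n : ℝ)))⌋₊ : ℕ) < n := by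
  have hδ : (0:ℝ) < 1 / n := by positivity
  have hn' : (0:ℝ) < n := by exact_mod_cast hn
  have hd0 : 0 < d := by linarith
  have mem : ∀ w : ℂ, ‖w‖ < d → z + w ∈ Sq := by
    intro w hw
    apply hball
    rw [Metric.mem_ball, Complex.dist_eq]
    simpa using hw
  have hnorm : ∀ x y : ℝ, |x| + |y| < d → ‖(⟨x, y⟩ : ℂ)‖ < d := by
    intro x y hxy
    exact (Complex.norm_le_abs_re_add_abs_im (⟨x, y⟩ : ℂ)).trans_lt hxy
  have habs : |d / 2| + |(0:ℝ)| < d := by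
    rw [abs_zero, abs_of_pos (by linarith)]
    linarith
  have habs' : |-(d / 2)| + |(0:ℝ)| < d := by
    rw [abs_neg]
    exact habs
  have w1 : 0 < z.re - d / 2 := by
    have h := (mem ⟨-(d / 2), 0⟩ (hnorm _ _ habs')).1
    rw [Complex.add_re] at h
    have e : (⟨-(d / 2), 0⟩ : ℂ).re = -(d / 2) := rfl
    rw [e] at h
    linarith
  have w2 : z.re + d / 2 < 1 := by
    have h := (mem ⟨d / 2, 0⟩ (hnorm _ _ habs)).2.1
    rw [Complex.add_re] at h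
    have e : (⟨d / 2, 0⟩ : ℂ).re = d / 2 := rfl
    rw [e] at h
    linarith
  have w3 : 0 < z.im - d / 2 := by
    have h := (mem ⟨0, -(d / 2)⟩ (hnorm _ _ (by rw [add_comm]; exact habs'))).2.2.1
    rw [Complex.add_im] at h
    have e : (⟨0, -(d / 2)⟩ : ℂ).im = -(d / 2) := rfl
    rw [e] at h
    linarith
  have w4 : z.im + d / 2 < 1 := by
    have h := (mem ⟨0, d / 2⟩ (hnorm _ _ (by rw [add_comm]; exact habs))).2.2.2
    rw [Complex.add_im] at h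
    have e : (⟨0, d / 2⟩ : ℂ).im = d / 2 := rfl
    rw [e] at h
    linarith
  have hk : (⌊d / (8 * (1 / (n : ℝ)))⌋₊ : ℝ) ≤ d / (8 * (1 / (n : ℝ))) :=
    Nat.floor_le (by positivity)
  set k : ℕ := ⌊d / (8 * (1 / (n : ℝ)))⌋₊ with hkd
  have e0 : d / (8 * (1 / (n : ℝ))) = (d * n) / 8 := by
    field_simp
  rw [e0] at hk
  have hdn : 64 ≤ d * n := by
    have := mul_le_mul_of_nonneg_right hd hn'.le
    have e : 64 * (1 / (n : ℝ)) * n = 64 := by field_simp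
    rw [e] at this
    exact this
  have er : z.re / (1 / (n : ℝ)) = z.re * n := by field_simp
  have ei : z.im / (1 / (n : ℝ)) = z.im * n := by field_simp
  have a1 := Int.floor_le (z.re / (1 / (n : ℝ)))
  have a2 := Int.lt_floor_add_one (z.re / (1 / (n : ℝ)))
  have b1 := Int.floor_le (z.im / (1 / (n : ℝ)))
  have b2 := Int.lt_floor_add_one (z.im / (1 / (n : ℝ)))
  have v1 : 0 < z.re * n - (d * n) / 2 := by
    have h := mul_pos w1 hn'
    linarith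
  have v2 : z.re * n + (d * n) / 2 < n := by
    have h := mul_lt_mul_of_pos_right w2 hn'
    linarith
  have v3 : 0 < z.im * n - (d * n) / 2 := by
    have h := mul_pos w3 hn'
    linarith
  have v4 : z.im * n + (d * n) / 2 < n := by
    have h := mul_lt_mul_of_pos_right w4 hn'
    linarith
  rw [er] at a1 a2
  rw [ei] at b1 b2
  have c1 : (ctc (1 / n) z).1 = ⌊z.re * n⌋ := by
    unfold ctc
    show ⌊z.re / (1 / (n : ℝ))⌋ = _
    rw [er]
  have c2 : (ctc (1 / n) z).2 = ⌊z.im * n⌋ := by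
    unfold ctc
    show ⌊z.im / (1 / (n : ℝ))⌋ = _
    rw [ei]
  rw [c1, c2]
  refine ⟨?_, ?_, ?_, ?_⟩
  · have : (0:ℝ) < ((⌊z.re * n⌋ : ℤ) : ℝ) - (k : ℝ) := by linarith
    exact_mod_cast this
  · have : ((⌊z.re * n⌋ : ℤ) : ℝ) + (k : ℝ) < (n : ℝ) := by linarith
    exact_mod_cast this
  · have : (0:ℝ) < ((⌊z.im * n⌋ : ℤ) : ℝ) - (k : ℝ) := by linarith
    exact_mod_cast this
  · have : ((⌊z.im * n⌋ : ℤ) : ℝ) + (k : ℝ) < (n : ℝ) := by linarith
    exact_mod_cast this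

/-- the deterministic part -/
theorem detC (hU : PD_UO) {z : ℂ} {r d : ℝ} {n : ℕ} (hn : 0 < n) (hδr : 1 / (n : ℝ) ≤ r)
    (hd : 256 * r ≤ d) {F : Finset Edg} {v : ℤ × ℤ} {c : Curve} (hT : IsTrace n F v c)
    (hE : c ∈ EvC z r (d / 2)) :
    A4a (ctc (1 / n) z) (⌈r / (1 / (n : ℝ))⌉₊ + 3 + 2) (⌊d / (8 * (1 / (n : ℝ)))⌋₊ - 2) ↑F ∨
      A4d (ctc (1 / n) z) (⌈r / (1 / (n : ℝ))⌉₊ + 3 + 2) (⌊d / (8 * (1 / (n : ℝ)))⌋₊ - 2) ↑F := by
  have hδ : (0:ℝ) < 1 / n := by positivity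
  obtain ⟨s, t, hst, h1, h2, ⟨u, ⟨hsu, hut⟩, h3⟩, w, hw, h4⟩ := hE
  obtain ⟨σ, N, hN, _, _, hper, hmin, hpath⟩ := hT
  have hr : 0 < r := hδ.trans_le hδr
  have hd0 : 0 < d := by linarith
  rw [hpath] at h1 h2 h3 h4
  have hst' : ∀ k < N, dist (pt n (orb (↑F) σ k).1) (pt n (orb (↑F) σ (k + 1)).1) ≤ 1 / (n : ℝ) :=
    fun k _ => pt_step' hn _ σ k
  obtain ⟨i, hiN, ⟨i1, i2⟩, hi⟩ := poly_close hN hst' s
  obtain ⟨j, hjN, ⟨j1, j2⟩, hj⟩ := poly_close hN hst' u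
  obtain ⟨l, hlN, ⟨l1, l2⟩, hl⟩ := poly_close hN hst' t
  obtain ⟨j', hjN', ⟨j1', j2'⟩, hj'⟩ := poly_close hN hst' w
  set f := poly (fun j => pt n (orb (↑F) σ j).1) N with hf
  have hsu' : s ≠ u := by
    intro h
    rw [h] at h1
    linarith
  have hut' : u ≠ t := by
    intro h
    rw [← h] at h2
    linarith
  have hsw' : w ≠ s := by
    intro h
    rw [← h] at h1
    linarith
  have htw' : t ≠ w := by
    intro h
    rw [h] at h2
    linarith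
  have hij : i ≤ j := idx_le hN hsu hsu' i1 j2
  have hjl : j ≤ l := idx_le hN hut hut' j1 l2
  -- positions
  have pi : dist (pt n (orb (↑F) σ i).1) z ≤ r + 1 / n := by
    have := dist_triangle_left (pt n (orb (↑F) σ i).1) z (f s)
    linarith
  have plz : dist (pt n (orb (↑F) σ l).1) z ≤ r + 1 / n := by
    have := dist_triangle_left (pt n (orb (↑F) σ l).1) z (f t)
    linarith
  have pj : d / 2 - 1 / n < dist (pt n (orb (↑F) σ j).1) z := by
    have := dist_triangle (f u) (pt n (orb (↑F) σ j).1) z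
    linarith
  have pj' : d / 2 - 1 / n < dist (pt n (orb (↑F) σ j').1) z := by
    have := dist_triangle (f w) (pt n (orb (↑F) σ j').1) z
    linarith
  have hij' : i < j := by
    rcases hij.lt_or_eq with h | h
    · exact h
    · exfalso
      rw [h] at pi
      linarith
  have hjl' : j < l := by
    rcases hjl.lt_or_eq with h | h
    · exact h
    · exfalso
      rw [← h] at plz
      linarith
  have hout : j' < i ∨ l < j' := by
    rcases hw with hw | hw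
    · left
      have h5 : j' ≤ i := idx_le hN hw hsw' j1' i2
      rcases h5.lt_or_eq with h | h
      · exact h
      · exfalso
        rw [← h] at pi
        linarith
    · right
      have h5 : l ≤ j' := idx_le hN hw htw' l1 j2'
      rcases h5.lt_or_eq with h | h
      · exact h
      · exfalso
        rw [h] at plz
        linarith
  obtain ⟨s1, _, _, _⟩ := sizes hδ hδr hd
  have hnb : ∀ x : ℕ, d / 2 - 1 / n < dist (pt n (orb (↑F) σ x).1) z →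
      ¬ inR ((ctc (1 / n) z).1 - (⌊d / (8 * (1 / (n : ℝ)))⌋₊ : ℕ))
        ((ctc (1 / n) z).1 + (⌊d / (8 * (1 / (n : ℝ)))⌋₊ : ℕ))
        ((ctc (1 / n) z).2 - (⌊d / (8 * (1 / (n : ℝ)))⌋₊ : ℕ))
        ((ctc (1 / n) z).2 + (⌊d / (8 * (1 / (n : ℝ)))⌋₊ : ℕ)) (orb (↑F) σ x).1 := by
    intro x hx hin
    have h5 := box_nearC hn hin
    have hk : (⌊d / (8 * (1 / (n : ℝ)))⌋₊ : ℝ) ≤ d / (8 * (1 / (n : ℝ))) :=
      Nat.floor_le (by positivity)
    have h6 : 2 * (1 / (n : ℝ)) * (⌊d / (8 * (1 / (n : ℝ)))⌋₊ : ℝ) ≤ d / 4 := by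
      calc 2 * (1 / (n : ℝ)) * (⌊d / (8 * (1 / (n : ℝ)))⌋₊ : ℝ) ≤
            2 * (1 / (n : ℝ)) * (d / (8 * (1 / (n : ℝ)))) :=
            mul_le_mul_of_nonneg_left hk (by positivity)
        _ = d / 4 := by
            have : (n : ℝ) ≠ 0 := by positivity
            field_simp
            norm_num
    linarith
  exact hU F σ N hN hper hmin (ctc (1 / n) z) (⌈r / (1 / (n : ℝ))⌉₊ + 3)
    ⌊d / (8 * (1 / (n : ℝ)))⌋₊ s1 i j l j' hij' hjl' hlN.le hout hjN'.le (near_boxC hn pi)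
    (near_boxC hn plz) (hnb j pj) (hnb j' pj')

/-! ### Probability -/

/-- probability bound -/
theorem prob_leC (hU : PD_UO) (hA : St_Aa) (hD : St_Ad)
    {sel : (n : ℕ) → Finset Plain.Edge → ℤ × ℤ} {γ : (n : ℕ) → Finset Plain.Edge → Curve}
    (hT : Tr sel γ) :
    ∃ C : ℝ, 0 < C ∧ ∀ (z : ℂ) (r d : ℝ) (n : ℕ), 0 < r → r ≤ d →
      Metric.ball z d ⊆ Sq → 0 < n → 1 / (n : ℝ) ≤ r →
        (lawOf n (γ n) : Measure Curve) (EvC z r (d / 2)) ≤
          ENNReal.ofReal (C * (r / d) ^ (5/4 : ℝ)) := by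
  obtain ⟨Ca, hCa, hA'⟩ := hA
  obtain ⟨Cd, hCd, hD'⟩ := hD
  refine ⟨(Ca + Cd + 1) * 256 ^ (5/4 : ℝ), by positivity, ?_⟩
  intro z r d n hr hrd hball hn hδr
  have hδ : (0:ℝ) < 1 / n := by positivity
  have hd0 : 0 < d := hr.trans_le hrd
  rw [lawOf_apply _ _ (EvC_open z r (d / 2)).measurableSet]
  apply ENNReal.ofReal_le_ofReal
  have hq : 0 < r / d := by positivity
  have hRHS : (Ca + Cd + 1) * 256 ^ (5/4 : ℝ) * (r / d) ^ (5/4 : ℝ) =
      (Ca + Cd + 1) * (256 * (r / d)) ^ (5/4 : ℝ) := by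
    rw [Real.mul_rpow (by norm_num) hq.le]
    ring
  rw [hRHS]
  by_cases h256 : 256 * r ≤ d
  · obtain ⟨s1, s2, s3, s4⟩ := sizes hδ hδr h256
    obtain ⟨b1, b2, b3, b4⟩ := dom_boxC hn (by linarith) hball
    have hsub : blk (ctc (1 / n) z) ⌊d / (8 * (1 / (n : ℝ)))⌋₊ ⊆ RE 0 n 0 n :=
      RE_subset b1.le b2.le b3.le b4.le
    have hsub1 : ∀ k : ℕ, k ≤ ⌊d / (8 * (1 / (n : ℝ)))⌋₊ →
        blk (ctc (1 / n) z) k ⊆ RE 0 n 0 n := by
      intro k hk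
      refine (RE_subset ?_ ?_ ?_ ?_).trans hsub <;> omega
    have h1 := hA' (ctc (1 / n) z) (⌈r / (1 / (n : ℝ))⌉₊ + 3 + 2)
      (⌊d / (8 * (1 / (n : ℝ)))⌋₊ - 2) (by omega) s2 (RE 0 n 0 n) (hsub1 _ (by omega))
    have h2 := hD' (ctc (1 / n) z) (⌈r / (1 / (n : ℝ))⌉₊ + 3 + 2)
      (⌊d / (8 * (1 / (n : ℝ)))⌋₊ - 2) (by omega) s2 (RE 0 n 0 n) (hsub1 _ (by omega))
    have hmono : Plain.prob n (fun F => γ n F ∈ EvC z r (d / 2)) ≤
        PQ (1/2) (RE 0 n 0 n) (fun F =>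
          A4a (ctc (1 / n) z) (⌈r / (1 / (n : ℝ))⌉₊ + 3 + 2)
            (⌊d / (8 * (1 / (n : ℝ)))⌋₊ - 2) ↑F ∨
          A4d (ctc (1 / n) z) (⌈r / (1 / (n : ℝ))⌉₊ + 3 + 2)
            (⌊d / (8 * (1 / (n : ℝ)))⌋₊ - 2) ↑F) := by
      refine Plain.prob_le_of_pr ?_
      intro F hF hE
      exact detC hU hn hδr h256 (hT.2 n F hn hF) hE
    have hor := Pr_or_le okh (RE 0 n 0 n)
      (fun F => A4a (ctc (1 / n) z) (⌈r / (1 / (n : ℝ))⌉₊ + 3 + 2)
        (⌊d / (8 * (1 / (n : ℝ)))⌋₊ - 2) ↑F)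
      (fun F => A4d (ctc (1 / n) z) (⌈r / (1 / (n : ℝ))⌉₊ + 3 + 2)
        (⌊d / (8 * (1 / (n : ℝ)))⌋₊ - 2) ↑F)
    have hpow : (((⌈r / (1 / (n : ℝ))⌉₊ + 3 + 2 : ℕ) : ℝ) /
        ((⌊d / (8 * (1 / (n : ℝ)))⌋₊ - 2 : ℕ) : ℝ)) ^ (5/4 : ℝ) ≤
        (256 * (r / d)) ^ (5/4 : ℝ) :=
      Real.rpow_le_rpow (by positivity) s4 (by norm_num)
    have hx0 : 0 ≤ (256 * (r / d)) ^ (5/4 : ℝ) := by positivity
    have h3 := mul_le_mul_of_nonneg_left hpow hCa.le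
    have h4 := mul_le_mul_of_nonneg_left hpow hCd.le
    have h5 := hmono.trans (hor.trans (add_le_add (h1.trans h3) (h2.trans h4)))
    refine h5.trans ?_
    nlinarith
  · push Not at h256
    have h1 : Plain.prob n (fun F => γ n F ∈ EvC z r (d / 2)) ≤ 1 := by
      rw [Plain.prob_eq]
      exact Pr_le_one okh _ _
    refine h1.trans ?_
    have h2 : 1 ≤ 256 * (r / d) := by
      rw [← mul_div_assoc, le_div_iff₀ hd0]
      linarith
    have h3 : 1 ≤ (256 * (r / d)) ^ (5/4 : ℝ) := Real.one_le_rpow h2 (by norm_num)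
    nlinarith

/-! ### Covering -/

open Classical in
/-- the event which belongs to a covering set -/
noncomputable def HC (D : Set ℂ) (d N : ℝ) (a b : ℤ) : Set Curve :=
  if h : (H934F.t10_sq N a b ∩ H934F.t10_A D d).Nonempty then EvC h.some (2 / N) (d / 2) else ∅

theorem HC_open (D : Set ℂ) (d N : ℝ) (a b : ℤ) : IsOpen (HC D d N a b) := by
  unfold HC
  split_ifs
  · exact EvC_open _ _ _
  · exact isOpen_empty

theorem HC_of {D : Set ℂ} {d N η : ℝ} (hdη : d ≤ η) (hN : 2 / N ≤ d / 2) {a b : ℤ} {p : Curve}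
    {A : Set ℂ} (h : ((DPc η p.path ∩ A) ∩ H934F.t10_U D d N a b).Nonempty) :
    p ∈ HC D d N a b := by
  obtain ⟨w, ⟨hw1, _⟩, hw2⟩ := h
  unfold H934F.t10_U at hw2
  unfold HC
  split_ifs at hw2 ⊢ with h
  · rw [Metric.mem_ball] at hw2
    exact EvC_of_DPc hw1 hw2 (by linarith)
  · exact absurd hw2 (Set.notMem_empty _)

/-- one scale -/
theorem one_scaleC {D : Set ℂ} {M : ℕ} (hM : ∀ z ∈ D, |z.re| < M ∧ |z.im| < M) {C d η : ℝ}
    (hC : 0 < C) (hd : 0 < d) (hdη : d ≤ η) {μs : ℕ → ProbabilityMeasure Curve}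
    {μ : ProbabilityMeasure Curve} (hμ : Tendsto μs atTop (𝓝 μ))
    (hp : ∀ (z : ℂ) (r : ℝ), 0 < r → r ≤ d → Metric.ball z d ⊆ D →
      ∀ᶠ i in atTop, (μs i : Measure Curve) (EvC z r (d / 2)) ≤
          ENNReal.ofReal (C * (r / d) ^ (5 / 4 : ℝ))) {t : ℝ} (ht : 3 / 4 < t) :
    ∀ᵐ p ∂(μ : Measure Curve), dimH (DPc η p.path ∩ H934F.t10_A D d) ≤ ENNReal.ofReal t := by
  obtain ⟨m1, hm1⟩ := exists_nat_gt (4 / d)
  set m0 : ℕ := m1 + 1 with hm0
  have hN : ∀ m : ℕ, (0 : ℝ) < ((m + m0 : ℕ) : ℝ) := by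
    intro m
    have : 0 < m + m0 := by omega
    exact_mod_cast this
  have hNd : ∀ m : ℕ, 2 / ((m + m0 : ℕ) : ℝ) ≤ d / 2 := by
    intro m
    rw [div_le_iff₀ (hN m)]
    rw [div_lt_iff₀ hd] at hm1
    have : (m1 : ℝ) ≤ ((m + m0 : ℕ) : ℝ) := by
      have : m1 ≤ m + m0 := by omega
      exact_mod_cast this
    nlinarith
  have hsub : H934F.t10_A D d ⊆ D := fun z hz => hz (Metric.mem_ball_self hd)
  refine upperG (by linarith) hμ (fun p => DPc η p.path ∩ H934F.t10_A D d)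
    (ι := fun m => Fin (2 * M * (m + m0)) × Fin (2 * M * (m + m0)))
    (fun m i => H934F.t10_U D d ((m + m0 : ℕ) : ℝ) ((i.1 : ℕ) - (M * (m + m0) : ℕ) : ℤ)
      ((i.2 : ℕ) - (M * (m + m0) : ℕ) : ℤ))
    (fun m i => HC D d ((m + m0 : ℕ) : ℝ) ((i.1 : ℕ) - (M * (m + m0) : ℕ) : ℤ)
      ((i.2 : ℕ) - (M * (m + m0) : ℕ) : ℤ))
    (fun m i => HC_open _ _ _ _ _) (fun m i p h => HC_of hdη (hNd m) h)
    (fun m => ENNReal.ofReal (4 / ((m + m0 : ℕ) : ℝ))) ?_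
    (fun m i => H934F.t10_U_ediam _ _ _ _ _)
    ?_ (fun m _ => ENNReal.ofReal (C * ((2 / ((m + m0 : ℕ) : ℝ)) / d) ^ (5 / 4 : ℝ))) ?_ ?_
  · -- the radii tend to zero
    have h1 : Tendsto (fun m : ℕ => ((m + m0 : ℕ) : ℝ)) atTop atTop :=
      tendsto_natCast_atTop_atTop.comp (tendsto_add_atTop_nat m0)
    have h2 : Tendsto (fun m : ℕ => 4 / ((m + m0 : ℕ) : ℝ)) atTop (𝓝 0) :=
      h1.const_div_atTop 4
    have h3 := ENNReal.tendsto_ofReal h2
    rwa [ENNReal.ofReal_zero] at h3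
  · -- covering
    rintro m p z ⟨_, hz⟩
    obtain ⟨h1, h2⟩ := hM z (hsub hz)
    have hb : ∀ y : ℝ, |y| < M → -((M * (m + m0) : ℕ) : ℤ) ≤ ⌊((m + m0 : ℕ) : ℝ) * y⌋ ∧
        ⌊((m + m0 : ℕ) : ℝ) * y⌋ < ((M * (m + m0) : ℕ) : ℤ) := by
      intro y hy
      rw [abs_lt] at hy
      have hn := hN m
      constructor
      · rw [Int.le_floor]
        push_cast at hn ⊢
        nlinarith
      · rw [Int.floor_lt]
        push_cast at hn ⊢
        nlinarith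
    obtain ⟨h3, h4⟩ := hb _ h1
    obtain ⟨h5, h6⟩ := hb _ h2
    refine Set.mem_iUnion.mpr ⟨(⟨(⌊((m + m0 : ℕ) : ℝ) * z.re⌋ + (M * (m + m0) : ℕ)).toNat, ?_⟩,
      ⟨(⌊((m + m0 : ℕ) : ℝ) * z.im⌋ + (M * (m + m0) : ℕ)).toNat, ?_⟩), ?_⟩
    · rw [Int.toNat_lt (by omega)]
      have : ((2 * M * (m + m0) : ℕ) : ℤ) = 2 * ((M * (m + m0) : ℕ) : ℤ) := by
        push_cast; ring
      omega
    · rw [Int.toNat_lt (by omega)]
      have : ((2 * M * (m + m0) : ℕ) : ℤ) = 2 * ((M * (m + m0) : ℕ) : ℤ) := by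
        push_cast; ring
      omega
    · have hcov := H934F.t10_U_cover (N := ((m + m0 : ℕ) : ℝ)) (hN m) hz
      simp only
      rw [Int.toNat_of_nonneg (by omega), Int.toNat_of_nonneg (by omega)]
      rw [add_sub_cancel_right, add_sub_cancel_right]
      exact hcov
  · -- probabilities
    intro m i
    unfold HC
    split_ifs with h
    · exact (hp h.some (2 / ((m + m0 : ℕ) : ℝ)) (div_pos two_pos (hN m))
        ((hNd m).trans (by linarith)) h.some_mem.2).frequently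
    · refine (Eventually.of_forall fun n => ?_).frequently
      rw [measure_empty]
      exact zero_le
  · -- the sums tend to zero
    have hl := ENNReal.tendsto_ofReal (lim0 M C d t hd ht m0 (by omega))
    rw [ENNReal.ofReal_zero] at hl
    refine tendsto_of_tendsto_of_tendsto_of_le_of_le tendsto_const_nhds hl
      (fun m => zero_le) (fun m => ?_)
    have hn := hN m
    have ht0 : 0 ≤ t := by linarith
    have h4 : 0 ≤ (4 : ℝ) / ((m + m0 : ℕ) : ℝ) := by positivity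
    calc ∑ i : Fin (2 * M * (m + m0)) × Fin (2 * M * (m + m0)),
          Metric.ediam (H934F.t10_U D d ((m + m0 : ℕ) : ℝ) ((i.1 : ℕ) - (M * (m + m0) : ℕ) : ℤ)
            ((i.2 : ℕ) - (M * (m + m0) : ℕ) : ℤ)) ^ t *
            ENNReal.ofReal (C * ((2 / ((m + m0 : ℕ) : ℝ)) / d) ^ (5 / 4 : ℝ))
        ≤ ∑ _i : Fin (2 * M * (m + m0)) × Fin (2 * M * (m + m0)),
          ENNReal.ofReal ((4 / ((m + m0 : ℕ) : ℝ)) ^ t *
            (C * ((2 / ((m + m0 : ℕ) : ℝ)) / d) ^ (5 / 4 : ℝ))) := by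
          refine Finset.sum_le_sum fun i _ => ?_
          have e5 : ENNReal.ofReal ((4 / ((m + m0 : ℕ) : ℝ)) ^ t *
              (C * ((2 / ((m + m0 : ℕ) : ℝ)) / d) ^ (5 / 4 : ℝ))) =
              ENNReal.ofReal (4 / ((m + m0 : ℕ) : ℝ)) ^ t *
                ENNReal.ofReal (C * ((2 / ((m + m0 : ℕ) : ℝ)) / d) ^ (5 / 4 : ℝ)) := by
            rw [ENNReal.ofReal_mul (by positivity), ENNReal.ofReal_rpow_of_nonneg h4 ht0]
          rw [e5]
          gcongr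
          exact H934F.t10_U_ediam _ _ _ _ _
      _ ≤ ENNReal.ofReal ((2 * M * ((m + m0 : ℕ) : ℝ)) ^ 2 * ((4 / ((m + m0 : ℕ) : ℝ)) ^ t *
            (C * ((2 / ((m + m0 : ℕ) : ℝ)) / d) ^ (5 / 4 : ℝ)))) := by
          have e : (2 * (M : ℝ) * ((m + m0 : ℕ) : ℝ)) ^ 2 =
              ((2 * M * (m + m0) * (2 * M * (m + m0)) : ℕ) : ℝ) := by
            push_cast
            ring
          rw [Finset.sum_const, Finset.card_univ, Fintype.card_prod, Fintype.card_fin,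
            nsmul_eq_mul, e, ENNReal.ofReal_mul (Nat.cast_nonneg _), ENNReal.ofReal_natCast]

theorem Sq_open : IsOpen Sq := by
  have h : Sq = {z : ℂ | 0 < z.re} ∩ {z : ℂ | z.re < 1} ∩ {z : ℂ | 0 < z.im} ∩
      {z : ℂ | z.im < 1} := by
    ext z
    unfold Sq
    simp only [Set.mem_inter_iff, Set.mem_ofPred_eq]
    tauto
  rw [h]
  exact ((((isOpen_lt continuous_const Complex.continuous_re).inter
    (isOpen_lt Complex.continuous_re continuous_const)).inter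
    (isOpen_lt continuous_const Complex.continuous_im)).inter
    (isOpen_lt Complex.continuous_im continuous_const))

theorem Sq_bdd : ∀ z ∈ Sq, |z.re| < ((1 : ℕ) : ℝ) ∧ |z.im| < ((1 : ℕ) : ℝ) := by
  rintro z ⟨h1, h2, h3, h4⟩
  rw [Nat.cast_one]
  exact ⟨by rw [abs_of_pos h1]; exact h2, by rw [abs_of_pos h3]; exact h4⟩

/-- PD-UL -/
theorem ul : PD_UL := by
  intro hU hA hD sel γ hT k hk μ hμ η hη
  obtain ⟨C, hC, hP⟩ := prob_leC hU hA hD hT
  set dn : ℕ → ℝ := fun n => min η (1 / ((n : ℝ) + 1)) with hdn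
  have hdn0 : ∀ n, 0 < dn n := fun n => lt_min hη (by positivity)
  have h1 : ∀ n j : ℕ, ∀ᵐ p ∂(μ : Measure Curve),
      dimH (DPc η p.path ∩ H934F.t10_A Sq (dn n)) ≤
        ENNReal.ofReal (3 / 4 + 1 / ((j : ℝ) + 1)) := by
    intro n j
    have hj : 0 < 1 / ((j : ℝ) + 1) := by positivity
    refine one_scaleC Sq_bdd hC (hdn0 n) (min_le_left _ _) hμ ?_ (by linarith)
    intro z r hr hrd hb
    obtain ⟨n0, hn0⟩ := exists_nat_gt (1 / r)
    have hev : ∀ᶠ i in atTop, max n0 1 ≤ k i := tendsto_atTop.mp hk _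
    filter_upwards [hev] with i hi
    rw [max_le_iff] at hi
    have hki : 0 < k i := hi.2
    have hki' : (0:ℝ) < k i := by exact_mod_cast hki
    have h6 : (n0 : ℝ) ≤ k i := by exact_mod_cast hi.1
    refine hP z r (dn n) (k i) hr hrd hb hki ?_
    rw [div_lt_iff₀ hr] at hn0
    rw [div_le_iff₀ hki']
    nlinarith
  have h2 : ∀ᵐ p ∂(μ : Measure Curve), ∀ n j : ℕ,
      dimH (DPc η p.path ∩ H934F.t10_A Sq (dn n)) ≤
        ENNReal.ofReal (3 / 4 + 1 / ((j : ℝ) + 1)) := by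
    rw [ae_all_iff]
    intro n
    rw [ae_all_iff]
    intro j
    exact h1 n j
  filter_upwards [h2] with p hp
  have hsub : DPc η p.path ∩ Sq ⊆ ⋃ n : ℕ, DPc η p.path ∩ H934F.t10_A Sq (dn n) := by
    rintro z ⟨hzK, hzD⟩
    obtain ⟨ε, hε, hb⟩ := Metric.isOpen_iff.mp Sq_open z hzD
    obtain ⟨n, hn⟩ := exists_nat_one_div_lt hε
    exact Set.mem_iUnion.mpr ⟨n, hzK,
      (Metric.ball_subset_ball ((min_le_right _ _).trans hn.le)).trans hb⟩
  refine (dimH_mono hsub).trans ?_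
  rw [dimH_iUnion]
  refine iSup_le fun n => ?_
  have hlim : Tendsto (fun j : ℕ => ENNReal.ofReal (3 / 4 + 1 / ((j : ℝ) + 1))) atTop
      (𝓝 (ENNReal.ofReal (3 / 4 + 0))) :=
    ENNReal.tendsto_ofReal (tendsto_const_nhds.add tendsto_one_div_add_atTop_nhds_zero_nat)
  have h74 : ENNReal.ofReal (3 / 4 + 0) = 3 / 4 := by
    rw [add_zero, ENNReal.ofReal_div_of_pos (by norm_num)]
    norm_num
  rw [h74] at hlim
  exact ge_of_tendsto' hlim (fun j => hp n j)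

end Pool.Agent.W978.PDUL
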